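import Mathlib
import Pool.Agent.helper35.DR.SpecZ

/-!
# Project dr (MP_baa4d7_al), module FST
-/

set_option autoImplicit false

namespace Pool.Agent.DR

open Pool.Agent.helper58.DC Pool.Agent.DI

theorem FST_top {A : Type} [Group A] [Finite A] (a : Subgroup A → ℤ) :
    ∑ᶠ V : {V : Subgroup A // ⊤ ≤ V}, a V.1 = a ⊤ := by
  have h : Unique {V : Subgroup A // ⊤ ≤ V} :=
    { default := ⟨⊤, le_rfl⟩
      uniq := fun V => Subtype.ext (top_le_iff.1 V.2) }
  rw [finsum_unique]
  exact congrArg a (top_le_iff.1 (Subtype.prop _))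

theorem FST_two {A : Type} [Group A] [Finite A] (a : Subgroup A → ℤ) (V : Subgroup A)
    (hV : V ≠ ⊤) (h : ∀ W : Subgroup A, V ≤ W → W = V ∨ W = ⊤) :
    ∑ᶠ W : {W : Subgroup A // V ≤ W}, a W.1 = a V + a ⊤ := by
  classical
  have h1 : (∑ᶠ W : {W : Subgroup A // V ≤ W}, a W.1) =
      ∑ᶠ W ∈ {W : Subgroup A | V ≤ W}, a W :=
    finsum_subtype_eq_finsum_cond (fun W : Subgroup A => V ≤ W)
  have h2 : {W : Subgroup A | V ≤ W} = {V, ⊤} := by
    ext W
    constructor
    · intro hW
      exact h W hW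
    · rintro (rfl | rfl)
      · exact le_refl W
      · exact (le_top : V ≤ ⊤)
  rw [h1, h2, finsum_mem_pair hV]

/-- FST. The induction step for one extension. -/
theorem FST (hD13 : D13_stmt) (hRE : RE_stmt) (hST : ST_stmt) (hD6 : D6_stmt) (hPCA : PCA_stmt)
    (hZCA : ZCA_stmt) (hGVM : GVM_stmt) : FST_stmt := by
  intro p _ M hM hpM G E A _ _ _ _ _ X hRed hU hQ hO χ hχ hPD d
  have hfA : Finite A := Finite.of_surjective X.proj X.proj_surjective
  have hsub : ∀ (U : Subgroup A), U ≠ ⊤ → ∀ d' : ℤ,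
      ∑ᶠ V : {V : Subgroup A // U ≤ V}, altSum X p M χ d' V.1 = 0 := by
    intro U hUt d'
    rw [← hRE G E A X p M χ hχ d' U]
    exact hU U hUt G (U.comap X.proj) U (resE X U) ⟨MulEquiv.refl _⟩ hO χ hχ hPD d' ⊤
  have htop : ∀ d' : ℤ, altSum X p M χ d' ⊤ = 0 := by
    intro d'
    by_cases hS : Stable X M χ
    · rcases le_or_gt d' 0 with hd | hd
      · exact hD6 G E A X p M hM hpM χ hχ hPD d' hd ⊤
      · unfold Red at hRed
        push Not at hRed
        obtain ⟨N, hN, hN2⟩ := hRed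
        have : N.Normal := hN.nor
        have hcpl : ∀ V : Subgroup A, IsCpl N V → ∀ d'' : ℤ,
            altSum X p M χ d'' V + altSum X p M χ d'' ⊤ = 0 := by
          intro V hV d''
          have h1 := (hGVM A N hN).2.1 V hV
          rw [← FST_two (fun W => altSum X p M χ d'' W) V h1.1 h1.2]
          exact hsub V h1.1 d''
        by_cases hp : p ∣ Nat.card N
        · exact hPCA G E A X p M hM hpM hO χ hχ hS N hN hp (hQ N hN.ne) hcpl d' hd
        · exact hZCA G E A X p M hM hpM hO χ hχ hS N hN hp (hN2 hp) (hQ N hN.ne) hcpl d' hd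
    · by_contra hne
      exact hS (hST G E A X p M χ hχ d' hne)
  refine hD13 A (fun V => altSum X p M χ d V) fun U => ?_
  by_cases hUt : U = ⊤
  · subst hUt
    rw [FST_top (fun V => altSum X p M χ d V)]
    exact htop d
  · exact hsub U hUt d

end Pool.Agent.DR
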