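import Mathlib
import Pool.Agent.helper35.DR.SpecP

/-!
# Project dr (MP_baa4d7_al), module PRL
-/

set_option autoImplicit false

namespace Pool.Agent.DR

open Pool.Agent.helper58.DC Pool.Agent.DI

theorem PRL_t01 : t₀ ≠ t₁ := by
  intro h
  exact Bool.noConfusion (show (false : Bool) = true from h)

theorem PRL_cases (t : TT) : t = t₀ ∨ t = t₁ := by
  revert t
  change ∀ t : Bool, t = false ∨ t = true
  decide

theorem PRL_two₀ {α : Type} (a b : α) : two a b t₀ = a := if_pos rfl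

theorem PRL_two₁ {α : Type} (a b : α) : two a b t₁ = b := if_neg fun h => PRL_t01 h.symm

theorem PRL_prod (g : TT → ℤ) : ∏ t, g t = g t₀ * g t₁ := by
  have h : (Finset.univ : Finset TT) = {t₀, t₁} := by
    ext t
    simpa using PRL_cases t
  rw [h, Finset.prod_pair PRL_t01]

theorem PRL_sum2 {α : Type} (R : Finset α) (g : (TT → α) → ℤ) :
    ∑ᶠ C ∈ {C : TT → α | ∀ t, C t ∈ R}, g C = ∑ a ∈ R, ∑ b ∈ R, g (two a b) := by
  have h : {C : TT → α | ∀ t, C t ∈ R} =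
      (fun q : α × α => (two q.1 q.2 : TT → α)) '' ((R ×ˢ R : Finset (α × α)) : Set (α × α)) := by
    ext C
    constructor
    · intro hC
      refine ⟨(C t₀, C t₁), ?_, ?_⟩
      · rw [Finset.mem_coe, Finset.mem_product]
        exact ⟨hC _, hC _⟩
      · funext t
        rcases PRL_cases t with rfl | rfl
        · exact PRL_two₀ _ _
        · exact PRL_two₁ _ _
    · rintro ⟨q, hq, rfl⟩ t
      rw [Finset.mem_coe, Finset.mem_product] at hq
      rcases PRL_cases t with rfl | rfl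
      · change two q.1 q.2 t₀ ∈ R
        rw [PRL_two₀]
        exact hq.1
      · change two q.1 q.2 t₁ ∈ R
        rw [PRL_two₁]
        exact hq.2
  rw [h, finsum_mem_image, finsum_mem_coe_finset, Finset.sum_product]
  intro q _ q' _ hqq
  have h1 : two q.1 q.2 = two q'.1 q'.2 := hqq
  have h2 := congrFun h1 t₀
  have h3 := congrFun h1 t₁
  rw [PRL_two₀, PRL_two₀] at h2
  rw [PRL_two₁, PRL_two₁] at h3
  exact Prod.ext h2 h3

theorem PRL_sumP {α β : Type} (R : Finset α) (S : α → Finset β) (f : α × β → ℤ) :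
    ∑ᶠ x ∈ {x : α × β | x.1 ∈ R ∧ x.2 ∈ S x.1}, f x = ∑ a ∈ R, ∑ b ∈ S a, f (a, b) := by
  have h : {x : α × β | x.1 ∈ R ∧ x.2 ∈ S x.1} =
      (fun q : (Σ _ : α, β) => (q.1, q.2)) '' ((R.sigma S : Finset (Σ _ : α, β)) :
        Set (Σ _ : α, β)) := by
    ext x
    constructor
    · intro hx
      refine ⟨⟨x.1, x.2⟩, ?_, rfl⟩
      rw [Finset.mem_coe, Finset.mem_sigma]
      exact hx
    · rintro ⟨q, hq, rfl⟩
      rw [Finset.mem_coe, Finset.mem_sigma] at hq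
      exact hq
  rw [h, finsum_mem_image, finsum_mem_coe_finset, Finset.sum_sigma]
  rintro ⟨a, b⟩ _ ⟨a', b'⟩ _ hqq
  have h1 : (a, b) = (a', b') := hqq
  obtain ⟨rfl, rfl⟩ := Prod.mk.inj h1
  rfl

open Classical in
/-- PRL. The relation for the fibre square as a sum over pairs of pairs. -/
theorem PRL (hPCH : PCH_stmt) (hPSB : PSB_stmt) (hPMP : PMP_stmt) (hPDL : PDL_stmt)
    (hPIR : PIR_stmt) (hIF : IF_stmt) : PRL_stmt := by
  intro G E A _ _ _ _ _ X p _ M hO χ hχ N D hR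
  have : Fintype (Finset (Subgroup G)) := Fintype.ofFinite _
  set R : Finset (Finset (Subgroup G)) := Finset.univ.filter (fun C => IsRadical p C) with hRdef
  have hfin : ∀ C : Finset (Subgroup G), {ψ : G → ℂ | ψ ∈ IrrOn (nrm C) ∧ Induces M ψ χ}.Finite :=
    fun C => (hIF G (nrm C)).1.subset fun ψ hψ => hψ.1
  set S : Finset (Subgroup G) → Finset (G → ℂ) := fun C => (hfin C).toFinset with hSdef
  have hmR : ∀ C, C ∈ R ↔ IsRadical p C := fun C => by simp [hRdef]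
  have hmS : ∀ C ψ, ψ ∈ S C ↔ ψ ∈ IrrOn (nrm C) ∧ Induces M ψ χ := fun C ψ => by
    rw [hSdef]
    exact Set.Finite.mem_toFinset _
  -- the function of pairs
  set K : Finset (Subgroup G) × (G → ℂ) → Finset (Subgroup G) × (G → ℂ) → ℤ := fun x y =>
    if (Vx X x ⊓ Vx X y) ⊔ N = ⊤ then relP X p N x y D else 0 with hK
  -- the relation
  have h1 : ∑ᶠ C' ∈ {C' : Finset (Subgroup (TT → G)) | IsRadical p C'}, (-1) ^ (C'.card + 1) *
      (∑ᶠ ψ ∈ {ψ : (TT → G) → ℂ | ψ ∈ IrrOn (nrm C') ∧ Induces M ψ (tens (fam χ)) ∧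
        ((X2 X).stab C' ψ).map (X2 X).proj ⊔ N = ⊤}, relT (X2 X) p N C' ψ D) = 0 := hR
  have h2 := hPCH G TT p hO
    (fun C' => ∑ᶠ ψ ∈ {ψ : (TT → G) → ℂ | ψ ∈ IrrOn (nrm C') ∧ Induces M ψ (tens (fam χ)) ∧
        ((X2 X).stab C' ψ).map (X2 X).proj ⊔ N = ⊤}, relT (X2 X) p N C' ψ D)
    (fun C => ∑ ψ₀ ∈ S (C t₀), ∑ ψ₁ ∈ S (C t₁), K (C t₀, ψ₀) (C t₁, ψ₁)) ?_
  · beta_reduce at h2
    rw [h1] at h2
    have h3 : {C : TT → Finset (Subgroup G) | ∀ t, IsRadical p (C t)} =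
        {C : TT → Finset (Subgroup G) | ∀ t, C t ∈ R} := by
      ext C
      exact forall_congr' fun t => (hmR _).symm
    rw [h3, PRL_sum2] at h2
    have h4 : {x : Finset (Subgroup G) × (G → ℂ) | IsPair p M χ x} =
        {x : Finset (Subgroup G) × (G → ℂ) | x.1 ∈ R ∧ x.2 ∈ S x.1} := by
      ext x
      change IsPair p M χ x ↔ x.1 ∈ R ∧ x.2 ∈ S x.1
      rw [hmR, hmS]
      exact Iff.rfl
    rw [h4, PRL_sumP]
    refine Eq.trans ?_ h2.symm
    refine Finset.sum_congr rfl fun C₀ _ => ?_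
    rw [Finset.sum_congr rfl fun ψ₀ _ => PRL_sumP R S _, Finset.sum_comm]
    refine Finset.sum_congr rfl fun C₁ _ => ?_
    rw [PRL_prod, PRL_two₀, PRL_two₁, Finset.mul_sum]
    refine Finset.sum_congr rfl fun ψ₀ _ => ?_
    rw [Finset.mul_sum]
  · intro C hC W hW
    have h3 : ∑ᶠ ψ ∈ {ψ : (TT → G) → ℂ | ψ ∈ IrrOn (nrm (asmC C W)) ∧
        Induces M ψ (tens (fam χ)) ∧
        ((X2 X).stab (asmC C W) ψ).map (X2 X).proj ⊔ N = ⊤}, relT (X2 X) p N (asmC C W) ψ D =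
      ∑ᶠ ψ ∈ {ψ : (TT → G) → ℂ | ψ ∈ IrrOn (nrm (asmC C W)) ∧ Induces M ψ (tens (fam χ))},
        (if ((X2 X).stab (asmC C W) ψ).map (X2 X).proj ⊔ N = ⊤ then
          relT (X2 X) p N (asmC C W) ψ D else 0) := by
      refine finsum_congr fun ψ => ?_
      by_cases ha : ψ ∈ IrrOn (nrm (asmC C W)) ∧ Induces M ψ (tens (fam χ))
      · by_cases hb : ((X2 X).stab (asmC C W) ψ).map (X2 X).proj ⊔ N = ⊤
        · rw [finsum_eq_if, finsum_eq_if, if_pos, if_pos, if_pos hb]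
          · exact ha
          · exact ⟨ha.1, ha.2, hb⟩
        · rw [finsum_eq_if, finsum_eq_if, if_neg, if_pos, if_neg hb]
          · exact ha
          · exact fun hc => hb hc.2.2
      · rw [finsum_eq_if, finsum_eq_if, if_neg, if_neg]
        · exact ha
        · exact fun hc => ha ⟨hc.1, hc.2.1⟩
    rw [h3, hPIR G p M hO χ hχ C hC W hW]
    have h4 : ∀ t, {ψ : G → ℂ | ψ ∈ IrrOn (nrm (C t)) ∧ Induces M ψ χ} =
        ((S (C t) : Finset (G → ℂ)) : Set (G → ℂ)) := fun t => by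
      ext ψ
      exact (hmS _ _).symm
    rw [h4 t₀, h4 t₁, finsum_mem_coe_finset]
    refine Finset.sum_congr rfl fun ψ₀ h₀ => ?_
    rw [finsum_mem_coe_finset]
    refine Finset.sum_congr rfl fun ψ₁ h₁ => ?_
    rw [hmS] at h₀ h₁
    have h5 : ∀ t, two ψ₀ (dl ψ₁) t ∈ IrrOn (nrm (C t)) := by
      intro t
      rcases PRL_cases t with rfl | rfl
      · rw [PRL_two₀]
        exact h₀.1
      · rw [PRL_two₁]
        exact ((hPDL G ψ₁ χ).2.1 _).2 h₁.1
    have h6 : (X2 X).stab (asmC C W) (tens (two ψ₀ (dl ψ₁))) =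
        prS X (two (X.stab (C t₀) ψ₀) (X.stab (C t₁) ψ₁)) := by
      rw [hPSB G E A X p hO C hC W hW _ h5]
      refine congrArg (prS X) (funext fun t => ?_)
      rcases PRL_cases t with rfl | rfl
      · rw [PRL_two₀, PRL_two₀]
      · rw [PRL_two₁, PRL_two₁]
        exact (hPDL G ψ₁ χ).2.2.2.2.2 E A X _
    have h7 : ((X2 X).stab (asmC C W) (tens (two ψ₀ (dl ψ₁)))).map (X2 X).proj =
        Vx X (C t₀, ψ₀) ⊓ Vx X (C t₁, ψ₁) := by
      rw [h6, (hPMP G E A X _).1, PRL_two₀, PRL_two₁]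
      rfl
    have h8 : relT (X2 X) p N (asmC C W) (tens (two ψ₀ (dl ψ₁))) D =
        relP X p N (C t₀, ψ₀) (C t₁, ψ₁) D := by
      unfold relT relP
      rw [h6]
    rw [h7, h8]

end Pool.Agent.DR
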