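import Mathlib
import Pool.Agent.helper35.DR.SpecA

/-!
# Project dr (MP_baa4d7_al), module CHB
-/

set_option autoImplicit false

namespace Pool.Agent.DR

open Pool.Agent.helper58.DC Pool.Agent.DI

theorem CHB_le {Γ : Type} [Group Γ] [Finite Γ] (p : ℕ) [hp : Fact p.Prime] (G₁ G₂ : Subgroup Γ)
    (hle : G₁ ≤ G₂) (hn : G₁.Normal) (m : ℕ) (hm : Nat.card G₂ = m * Nat.card G₁) (hpm : ¬ p ∣ m)
    (Q : Subgroup Γ) (hQ : Q ≤ G₂) (hQp : IsPGroup p Q) : Q ≤ G₁ := by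
  intro x hx
  have h1 : (G₁.subgroupOf G₂).index = m := by
    have h2 := Subgroup.card_mul_index (G₁.subgroupOf G₂)
    rw [Nat.card_congr (Subgroup.subgroupOfEquivOfLe hle).toEquiv, hm, mul_comm] at h2
    exact Nat.eq_of_mul_eq_mul_right Nat.card_pos h2
  have h2 : x ^ m ∈ G₁ := by
    have h3 := Subgroup.pow_index_mem (G₁.subgroupOf G₂) ⟨x, hQ hx⟩
    rw [h1] at h3
    exact h3
  obtain ⟨k, hk⟩ := hQp ⟨x, hx⟩
  have h4 : x ^ p ^ k = 1 := congrArg Subtype.val hk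
  have h5 : Nat.Coprime m (p ^ k) :=
    Nat.Coprime.pow_right k ((Nat.Prime.coprime_iff_not_dvd hp.out).2 hpm).symm
  have h6 : IsCoprime (m : ℤ) ((p ^ k : ℕ) : ℤ) := Nat.isCoprime_iff_coprime.2 h5
  obtain ⟨a, b, hab⟩ := h6
  have h7 : x = (x ^ m) ^ a * (x ^ p ^ k) ^ b := by
    rw [← zpow_natCast, ← zpow_natCast, ← zpow_mul, ← zpow_mul, ← zpow_add]
    rw [mul_comm (m : ℤ) a, mul_comm ((p ^ k : ℕ) : ℤ) b, hab, zpow_one]
  rw [h7, h4, one_zpow, mul_one]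
  exact G₁.zpow_mem h2 a

/-- CHB. Index prime to `p`. -/
theorem CHB : CHB_stmt := by
  intro Γ _ _ p _ G₁ G₂ hle hn m hm hpm M g
  have h : {C : Finset (Subgroup Γ) | PCh p G₂ ⊥ C} = {C : Finset (Subgroup Γ) | PCh p G₁ ⊥ C} := by
    ext C
    constructor
    · intro hC
      exact ⟨hC.chain, hC.mem, hC.bot, fun Q hQ =>
        CHB_le p G₁ G₂ hle hn m hm hpm Q (hC.le Q hQ) (hC.pg Q hQ), hC.pg⟩
    · intro hC
      exact ⟨hC.chain, hC.mem, hC.bot, fun Q hQ => (hC.le Q hQ).trans hle, hC.pg⟩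
  unfold cSum
  rw [h]

end Pool.Agent.DR
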